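import Mathlib
import Pool.Agent.H.MP_fedadc_co.Csf

namespace Pool.Agent.Results.MP_fedadc_co.Pos

/-- `G` has a connected partition of every type -/
def AllTypes {n : ℕ} (G : SimpleGraph (Fin n)) : Prop :=
  ∀ l : Nat.Partition n, ∃ P : Finpartition (Finset.univ : Finset (Fin n)),
    (∀ B ∈ P.parts, (G.induce (B : Set (Fin n))).Connected) ∧ P.parts.val.map Finset.card = l.parts

open Classical in
/-- chromatic symmetric function in n variables -/
noncomputable def csf {n : ℕ} (G : SimpleGraph (Fin n)) : MvPolynomial (Fin n) ℚ :=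
  ∑ κ ∈ Finset.univ.filter (fun κ : Fin n → Fin n => ∀ a b, G.Adj a b → κ a ≠ κ b),
    ∏ v, MvPolynomial.X (κ v)

open Pool.Agent.H.MP_fedadc_co

open MvPolynomial

theorem csf_sym {n : ℕ} (G : SimpleGraph (Fin n)) : (csf G).IsSymmetric := by
  classical
  intro e
  unfold csf
  simp only [map_sum, map_prod, rename_X]
  refine Finset.sum_equiv (Equiv.arrowCongr (Equiv.refl _) e) ?_ ?_
  · intro κ; simp
  · intro κ _; simp

theorem csf_eq {n : ℕ} (G : SimpleGraph (Fin n))
    [DecidablePred (fun κ : Fin n → Fin n => ∀ a b, G.Adj a b → κ a ≠ κ b)] : csf G =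
    ∑ κ ∈ Finset.univ.filter (fun κ : Fin n → Fin n => ∀ a b, G.Adj a b → κ a ≠ κ b),
      ∏ v, MvPolynomial.X (κ v) := by
  unfold csf
  congr!

theorem result : ∃ (G : SimpleGraph (Fin 31)) (_ : DecidableRel G.Adj),
    G.IsTree ∧ G.maxDegree = 4 ∧ AllTypes G ∧
    (∃! q : MvPolynomial (Fin 31) ℚ,
      aeval (fun i : Fin 31 => esymm (Fin 31) ℚ (i.val + 1)) q = csf G) ∧
    ∀ q : MvPolynomial (Fin 31) ℚ,
      aeval (fun i : Fin 31 => esymm (Fin 31) ℚ (i.val + 1)) q = csf G →
      coeff (Finsupp.single 1 14 + Finsupp.single 2 1) q = 7 := by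
  refine ⟨G, inferInstance, tree, maxdeg, fun l => allQ l, exu _ (csf_sym G), fun q hq => ?_⟩
  rw [@csf_eq 31 G (Classical.decPred _)] at hq
  exact @coeff_seven (Classical.decPred _) q hq

end Pool.Agent.Results.MP_fedadc_co.Pos
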